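import Pool.Agent.W584.GB.Defs

/-!
GB-CONTR (helper376 for helper584): the open star of an ordered configuration is contractible.
-/

set_option autoImplicit false

namespace Pool.Agent.W376.GB

open Pool.Agent.W584.GB

section

variable {V : Type} [Fintype V] [DecidableEq V] {G : SimpleGraph V}

/-- points of the realisation: nonnegative, sum one, supported in a closed edge -/
def PP (G : SimpleGraph V) (p : V → ℝ) (u v : V) : Prop :=
  (u = v ∨ G.Adj u v) ∧ (∀ z, 0 ≤ p z) ∧ ∑ z, p z = 1 ∧ ∀ z, z ≠ u → z ≠ v → p z = 0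

lemma pp_of (p : Pt G) : ∃ u v, PP G p.1 u v := by
  obtain ⟨p, u, v, h, t, ht0, ht1, rfl⟩ := p
  refine ⟨u, v, h, ?_, ?_, ?_⟩
  · intro z
    simp only [Pi.add_apply, Pi.smul_apply, smul_eq_mul]
    have h1 : ∀ a : V, 0 ≤ (Pi.single a (1 : ℝ) : V → ℝ) z := by
      intro a
      rw [Pi.single_apply]
      split_ifs <;> norm_num
    have := h1 u
    have := h1 v
    have h3 : 0 ≤ 1 - t := by linarith
    positivity
  · simp only [Pi.add_apply, Pi.smul_apply, smul_eq_mul]
    rw [Finset.sum_add_distrib, ← Finset.mul_sum, ← Finset.mul_sum]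
    simp [Pi.single_apply]
  · intro z hu hv
    simp [Pi.single_apply, hu, hv]

lemma sum_two {p : V → ℝ} {u v : V} (huv : u ≠ v) (h : ∑ z, p z = 1)
    (h0 : ∀ z, z ≠ u → z ≠ v → p z = 0) : p u + p v = 1 := by
  rw [← h, ← Finset.sum_pair huv]
  apply Finset.sum_subset (Finset.subset_univ _)
  intro z _ hz
  simp only [Finset.mem_insert, Finset.mem_singleton, not_or] at hz
  exact h0 z hz.1 hz.2

lemma sum_one {p : V → ℝ} {u : V} (h : ∑ z, p z = 1) (h0 : ∀ z, z ≠ u → p z = 0) : p u = 1 := by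
  rw [← h]
  exact (Finset.sum_eq_single u (fun z _ hz => h0 z hz) (by simp)).symm

lemma of_pp {p : V → ℝ} {u v : V} (h : PP G p u v) :
    ∃ u v : V, (u = v ∨ G.Adj u v) ∧
    ∃ t : ℝ, 0 ≤ t ∧ t ≤ 1 ∧ p = t • Pi.single u (1 : ℝ) + (1 - t) • Pi.single v (1 : ℝ) := by
  obtain ⟨h1, h2, h3, h4⟩ := h
  by_cases huv : u = v
  · subst huv
    have h5 : p u = 1 := sum_one h3 fun z hz => h4 z hz hz
    refine ⟨u, u, Or.inl rfl, 1, by norm_num, le_refl _, ?_⟩
    funext z
    by_cases hz : z = u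
    · subst hz
      simp [h5]
    · simp [Pi.single_apply, hz, h4 z hz hz]
  · have h5 := sum_two huv h3 h4
    refine ⟨u, v, h1, p u, h2 u, by linarith [h2 v], ?_⟩
    funext z
    by_cases hz : z = u
    · subst hz
      simp [Pi.single_apply, huv]
    · by_cases hz' : z = v
      · subst hz'
        have : p z = 1 - p u := by linarith
        simp [Pi.single_apply, hz, this]
      · simp [Pi.single_apply, hz, hz', h4 z hz hz']

/-- two points in the same closed edge with the same coordinate at one end are equal -/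
lemma pt_ext {p q : V → ℝ} {u v : V} (hp : PP G p u v) (hq : ∑ z, q z = 1)
    (hq0 : ∀ z, z ≠ u → z ≠ v → q z = 0) (h : p u = q u) : p = q := by
  obtain ⟨-, -, h3, h4⟩ := hp
  funext z
  by_cases hz : z = u
  · subst hz; exact h
  · by_cases hz' : z = v
    · subst hz'
      have e1 := sum_two (Ne.symm hz) h3 h4
      have e2 := sum_two (Ne.symm hz) hq hq0
      linarith
    · rw [h4 z hz hz', hq0 z hz hz']

lemma nonneg (p : Pt G) (z : V) : 0 ≤ p.1 z := by
  obtain ⟨u, v, h⟩ := pp_of p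
  exact h.2.1 z

lemma sum_pt (p : Pt G) : ∑ z, p.1 z = 1 := by
  obtain ⟨u, v, h⟩ := pp_of p
  exact h.2.2.1

/-- the segment from `p` to `q` -/
def seg (t : ℝ) (p q : V → ℝ) : V → ℝ := fun z => (1 - t) * p z + t * q z

lemma pp_seg {t : ℝ} (h0 : 0 ≤ t) (h1 : t ≤ 1) (p q : Pt G) (hs : ∀ z, 0 < q.1 z → 0 < p.1 z)
    {u v : V} (hp : PP G p.1 u v) : PP G (seg t p.1 q.1) u v := by
  obtain ⟨a1, a2, a3, a4⟩ := hp
  refine ⟨a1, ?_, ?_, ?_⟩
  · intro z
    have := nonneg q z
    have := a2 z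
    have : 0 ≤ 1 - t := by linarith
    unfold seg
    positivity
  · unfold seg
    rw [Finset.sum_add_distrib, ← Finset.mul_sum, ← Finset.mul_sum, a3, sum_pt q]
    ring
  · intro z hu hv
    have e1 := a4 z hu hv
    have e2 : q.1 z = 0 := by
      by_contra h
      have h3 := hs z (lt_of_le_of_ne (nonneg q z) (Ne.symm h))
      linarith
    unfold seg
    rw [e1, e2]
    ring

lemma zero_of {p q : Pt G} (hs : ∀ z, 0 < q.1 z → 0 < p.1 z) {z : V} (h : p.1 z = 0) :
    q.1 z = 0 := by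
  by_contra h'
  have h3 := hs z (lt_of_le_of_ne (nonneg q z) (Ne.symm h'))
  linarith

lemma inj_seg {t : ℝ} (h0 : 0 ≤ t) (h1 : t < 1) (f f' : Conf G) (hf' : f' ∈ St f) (i j : Fin 3)
    (he : seg t (f'.1 i).1 (f.1 i).1 = seg t (f'.1 j).1 (f.1 j).1) : i = j := by
  by_contra hij
  obtain ⟨u, v, hi⟩ := pp_of (f'.1 i)
  have hni : (f'.1 i).1 ≠ (f'.1 j).1 := by
    intro h
    exact hij (f'.2 (Subtype.ext h))
  have hnf : (f.1 i).1 ≠ (f.1 j).1 := by
    intro h
    exact hij (f.2 (Subtype.ext h))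
  have hz : ∀ z, (f'.1 i).1 z = 0 → (f'.1 j).1 z = 0 := by
    intro z hz
    have e1 := zero_of (hf'.1 i) hz
    have e2 := congrFun he z
    unfold seg at e2
    rw [hz, e1] at e2
    have e3 := nonneg (f'.1 j) z
    have e4 := nonneg (f.1 j) z
    have e5 : 0 ≤ t * (f.1 j).1 z := mul_nonneg h0 e4
    have e6 : (1 - t) * (f'.1 j).1 z ≤ 0 := by linarith
    by_contra h
    have : 0 < (f'.1 j).1 z := lt_of_le_of_ne e3 (Ne.symm h)
    have : 0 < (1 - t) * (f'.1 j).1 z := mul_pos (by linarith) this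
    linarith
  have hj0 : ∀ z, z ≠ u → z ≠ v → (f'.1 j).1 z = 0 := fun z h2 h3 => hz z (hi.2.2.2 z h2 h3)
  by_cases huv : u = v
  · subst huv
    apply hni
    apply pt_ext hi (sum_pt _) hj0
    rw [sum_one hi.2.2.1 fun z hz => hi.2.2.2 z hz hz, sum_one (sum_pt (f'.1 j)) fun z hz =>
      hj0 z hz hz]
  · have hadj : G.Adj u v := by
      rcases hi.1 with h | h
      · exact absurd h huv
      · exact h
    have e2 := congrFun he u
    unfold seg at e2
    rcases lt_trichotomy ((f.1 i).1 u) ((f.1 j).1 u) with h | h | h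
    · have h5 := hf'.2 i j u v hadj hi.2.2.2 hj0 h
      nlinarith
    · apply hnf
      have hfi : ∀ z, z ≠ u → z ≠ v → (f.1 i).1 z = 0 := fun z h2 h3 =>
        zero_of (hf'.1 i) (hi.2.2.2 z h2 h3)
      have hfj : ∀ z, z ≠ u → z ≠ v → (f.1 j).1 z = 0 := fun z h2 h3 =>
        zero_of (hf'.1 j) (hj0 z h2 h3)
      exact pt_ext (G := G) (u := u) (v := v) ⟨hi.1, nonneg _, sum_pt _, hfi⟩ (sum_pt _) hfj h
    · have h5 := hf'.2 j i u v hadj hj0 hi.2.2.2 h
      nlinarith

lemma self_mem (f : Conf G) : f ∈ St f := ⟨fun _ _ h => h, fun _ _ _ _ _ _ _ h => h⟩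

/-- the contraction -/
noncomputable def H (f : Conf G) (t : unitInterval) (f' : St f) : Conf G :=
  ⟨fun i => ⟨seg t (f'.1.1 i).1 (f.1 i).1, by
      obtain ⟨u, v, h⟩ := pp_of (f'.1.1 i)
      exact of_pp (pp_seg t.2.1 t.2.2 (f'.1.1 i) (f.1 i) (f'.2.1 i) h)⟩, by
    intro i j he
    have he' := congrArg Subtype.val he
    simp only at he'
    rcases lt_or_eq_of_le t.2.2 with h | h
    · exact inj_seg t.2.1 h f f'.1 f'.2 i j he'
    · have e : ∀ k, seg (t : ℝ) (f'.1.1 k).1 (f.1 k).1 = (f.1 k).1 := by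
        intro k
        unfold seg
        rw [h]
        funext z
        ring
      rw [e, e] at he'
      exact f.2 (Subtype.ext he')⟩

lemma H_val (f : Conf G) (t : unitInterval) (f' : St f) (i : Fin 3) (z : V) :
    ((H f t f').1 i).1 z = (1 - (t : ℝ)) * (f'.1.1 i).1 z + t * (f.1 i).1 z := rfl

lemma H_mem (f : Conf G) (t : unitInterval) (f' : St f) : H f t f' ∈ St f := by
  have t0 := t.2.1
  have t1 := t.2.2
  refine ⟨?_, ?_⟩
  · intro i u hu
    rw [H_val]
    have h1 := f'.2.1 i u hu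
    rcases lt_or_eq_of_le t1 with h | h
    · have h2 : 0 < (1 - (t : ℝ)) * (f'.1.1 i).1 u := mul_pos (by linarith) h1
      have h3 : 0 ≤ (t : ℝ) * (f.1 i).1 u := mul_nonneg t0 hu.le
      linarith
    · rw [h]
      linarith
  · intro i j u w hadj hi hj hlt
    rw [H_val, H_val]
    rcases lt_or_eq_of_le t1 with h | h
    · have hz : ∀ k, (∀ z, z ≠ u → z ≠ w → ((H f t f').1 k).1 z = 0) →
          ∀ z, z ≠ u → z ≠ w → (f'.1.1 k).1 z = 0 := by
        intro k hk z h2 h3
        have h4 := hk z h2 h3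
        rw [H_val] at h4
        have h5 := nonneg (f'.1.1 k) z
        have h6 : 0 ≤ (t : ℝ) * (f.1 k).1 z := mul_nonneg t0 (nonneg _ z)
        by_contra h7
        have h8 : 0 < (1 - (t : ℝ)) * (f'.1.1 k).1 z :=
          mul_pos (by linarith) (lt_of_le_of_ne h5 (Ne.symm h7))
        linarith
      have h9 := f'.2.2 i j u w hadj (hz i hi) (hz j hj) hlt
      nlinarith
    · rw [h]
      linarith

lemma H_zero (f : Conf G) (f' : St f) : H f 0 f' = f'.1 := by
  apply Subtype.ext
  funext i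
  apply Subtype.ext
  funext z
  rw [H_val]
  simp

lemma H_one (f : Conf G) (f' : St f) : H f 1 f' = f := by
  apply Subtype.ext
  funext i
  apply Subtype.ext
  funext z
  rw [H_val]
  simp

lemma H_cont (f : Conf G) : Continuous fun q : unitInterval × St f => H f q.1 q.2 := by
  apply Continuous.subtype_mk
  apply continuous_pi
  intro i
  apply Continuous.subtype_mk
  unfold seg
  apply continuous_pi
  intro z
  have h1 : Continuous fun q : unitInterval × St f => (q.2.1.1 i).1 z :=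
    (continuous_apply z).comp (continuous_subtype_val.comp ((continuous_apply i).comp
      (continuous_subtype_val.comp (continuous_subtype_val.comp continuous_snd))))
  have h2 : Continuous fun q : unitInterval × St f => (q.1 : ℝ) :=
    continuous_subtype_val.comp continuous_fst
  exact ((continuous_const.sub h2).mul h1).add (h2.mul continuous_const)

end

theorem contr : S_contr := by
  intro V _ _ G f
  rw [contractible_iff_id_nullhomotopic]
  refine ⟨⟨f, self_mem f⟩, ⟨⟨⟨fun q => ⟨H f q.1 q.2, H_mem f q.1 q.2⟩, ?_⟩, ?_, ?_⟩⟩⟩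
  · exact (H_cont f).subtype_mk _
  · intro f'
    exact Subtype.ext (H_zero f f')
  · intro f'
    exact Subtype.ext (H_one f f')

end Pool.Agent.W376.GB
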