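import Pool.Agent.W376.GB.Contr

/-!
GB-INJ, GB-MATCH (helper376 for helper584).
-/

set_option autoImplicit false

namespace Pool.Agent.W376.GB

open Pool.Agent.W584.GB

section

variable {V : Type} [Fintype V] [DecidableEq V] {G : SimpleGraph V}

lemma vtx_eq {p q : Pt G} {a : V} (hp : ∀ z, z ≠ a → p.1 z = 0) (hq : ∀ z, z ≠ a → q.1 z = 0) :
    p = q := by
  apply Subtype.ext
  funext z
  by_cases hz : z = a
  · subst hz
    rw [sum_one (sum_pt p) hp, sum_one (sum_pt q) hq]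
  · rw [hp z hz, hq z hz]

lemma edge_eq {p q : Pt G} {u w : V} (hp : ∀ z, z ≠ u → z ≠ w → p.1 z = 0)
    (hq : ∀ z, z ≠ u → z ≠ w → q.1 z = 0) (h : p.1 u = q.1 u) : p = q := by
  by_cases huw : u = w
  · subst huw
    exact vtx_eq (fun z hz => hp z hz hz) (fun z hz => hq z hz hz)
  · apply Subtype.ext
    funext z
    by_cases hz : z = u
    · subst hz; exact h
    · by_cases hz' : z = w
      · subst hz'
        have e1 := sum_two huw (sum_pt p) hp
        have e2 := sum_two huw (sum_pt q) hq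
        linarith
      · rw [hp z hz hz', hq z hz hz']

/-- a point with two positive coordinates lies inside an edge -/
lemma edge_of {p : Pt G} {u w : V} (huw : u ≠ w) (hu : 0 < p.1 u) (hw : 0 < p.1 w) :
    G.Adj u w ∧ ∀ z, z ≠ u → z ≠ w → p.1 z = 0 := by
  obtain ⟨a, b, h1, -, -, h4⟩ := pp_of p
  have hu' : u = a ∨ u = b := by
    by_contra h
    push Not at h
    exact hu.ne' (h4 u h.1 h.2)
  have hw' : w = a ∨ w = b := by
    by_contra h
    push Not at h
    exact hw.ne' (h4 w h.1 h.2)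
  rcases hu' with rfl | rfl
  · rcases hw' with rfl | rfl
    · exact absurd rfl huw
    · refine ⟨?_, h4⟩
      rcases h1 with h | h
      · exact absurd h huw
      · exact h
  · rcases hw' with rfl | rfl
    · refine ⟨?_, fun z hz hz' => h4 z hz' hz⟩
      rcases h1 with h | h
      · exact absurd h.symm huw
      · exact h.symm
    · exact absurd rfl huw

lemma classify (p : Pt G) : (∃ a, ∀ z, z ≠ a → p.1 z = 0) ∨
    ∃ u w, u ≠ w ∧ 0 < p.1 u ∧ 0 < p.1 w := by
  obtain ⟨a, b, h1, h2, h3, h4⟩ := pp_of p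
  by_cases hab : a = b
  · subst hab
    exact Or.inl ⟨a, fun z hz => h4 z hz hz⟩
  · by_cases ha : p.1 a = 0
    · left
      refine ⟨b, fun z hz => ?_⟩
      by_cases hz' : z = a
      · rw [hz', ha]
      · exact h4 z hz' hz
    · by_cases hb : p.1 b = 0
      · left
        refine ⟨a, fun z hz => ?_⟩
        by_cases hz' : z = b
        · rw [hz', hb]
        · exact h4 z hz hz'
      · right
        exact ⟨a, b, hab, lt_of_le_of_ne (h2 a) (Ne.symm ha), lt_of_le_of_ne (h2 b) (Ne.symm hb)⟩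

lemma vtx_pos {p : Pt G} {a : V} (hp : ∀ z, z ≠ a → p.1 z = 0) : 0 < p.1 a := by
  rw [sum_one (sum_pt p) hp]
  norm_num

/-- two distinct points supported in `{u, w}` are supported in the support of a common
container -/
lemma contain {p q r : Pt G} {u w : V} (hpq : p ≠ q) (hp : ∀ z, z ≠ u → z ≠ w → p.1 z = 0)
    (hq : ∀ z, z ≠ u → z ≠ w → q.1 z = 0) (hpr : ∀ z, 0 < p.1 z → 0 < r.1 z)
    (hqr : ∀ z, 0 < q.1 z → 0 < r.1 z) : u ≠ w ∧ 0 < r.1 u ∧ 0 < r.1 w := by
  have huw : u ≠ w := by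
    rintro rfl
    exact hpq (vtx_eq (fun z hz => hp z hz hz) (fun z hz => hq z hz hz))
  refine ⟨huw, ?_, ?_⟩
  · by_contra h
    have h0 : r.1 u = 0 := le_antisymm (not_lt.1 h) (nonneg r u)
    have e1 := zero_of hpr h0
    have e2 := zero_of hqr h0
    exact hpq (edge_eq hp hq (by rw [e1, e2]))
  · by_contra h
    have h0 : r.1 w = 0 := le_antisymm (not_lt.1 h) (nonneg r w)
    have e1 := zero_of hpr h0
    have e2 := zero_of hqr h0
    exact hpq (edge_eq (fun z hz hz' => hp z hz' hz) (fun z hz hz' => hq z hz' hz)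
      (by rw [e1, e2]))

lemma ne_pt (f : Conf G) {i j : Fin 3} (h : i ≠ j) : f.1 i ≠ f.1 j := fun e => h (f.2 e)

/-- no transposition -/
lemma no_swap (f f' : Conf G) (σ : Equiv.Perm (Fin 3)) (h1 : f' ∈ St f) (h2 : f'.perm σ ∈ St f)
    {i j : Fin 3} (hij : i ≠ j) (hi : σ i = j) (hj : σ j = i) : False := by
  have p1 : ∀ k z, 0 < (f.1 k).1 z → 0 < (f'.1 k).1 z := h1.1
  have p2 : ∀ k z, 0 < (f.1 k).1 z → 0 < (f'.1 (σ k)).1 z := h2.1
  obtain ⟨u, w, hu⟩ := pp_of (f'.1 i)
  have hfi : ∀ z, z ≠ u → z ≠ w → (f.1 i).1 z = 0 := fun z a b => zero_of (p1 i) (hu.2.2.2 z a b)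
  have hfj : ∀ z, z ≠ u → z ≠ w → (f.1 j).1 z = 0 := fun z a b => by
    have := p2 j
    rw [hj] at this
    exact zero_of this (hu.2.2.2 z a b)
  obtain ⟨huw, hju, hjw⟩ := contain (r := f'.1 j) (ne_pt f hij) hfi hfj
    (by have := p2 i; rwa [hi] at this) (p1 j)
  obtain ⟨hadj, hj0⟩ := edge_of huw hju hjw
  have q2 := h2.2
  rcases lt_trichotomy ((f.1 i).1 u) ((f.1 j).1 u) with h | h | h
  · have e1 := h1.2 i j u w hadj hu.2.2.2 hj0 h
    have e2 := h2.2 i j u w hadj (by change ∀ z, _ → _ → (f'.1 (σ i)).1 z = 0; rw [hi]; exact hj0)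
      (by change ∀ z, _ → _ → (f'.1 (σ j)).1 z = 0; rw [hj]; exact hu.2.2.2) h
    change (f'.1 (σ i)).1 u < (f'.1 (σ j)).1 u at e2
    rw [hi, hj] at e2
    linarith
  · exact ne_pt f hij (edge_eq hfi hfj h)
  · have e1 := h1.2 j i u w hadj hj0 hu.2.2.2 h
    have e2 := h2.2 j i u w hadj
      (by change ∀ z, _ → _ → (f'.1 (σ j)).1 z = 0; rw [hj]; exact hu.2.2.2)
      (by change ∀ z, _ → _ → (f'.1 (σ i)).1 z = 0; rw [hi]; exact hj0) h
    change (f'.1 (σ j)).1 u < (f'.1 (σ i)).1 u at e2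
    rw [hi, hj] at e2
    linarith

/-- a three-cycle: no point of `f` is inside an edge -/
lemma cyc_edge (f f' : Conf G) (σ : Equiv.Perm (Fin 3)) (h1 : f' ∈ St f) (h2 : f'.perm σ ∈ St f)
    {i j k : Fin 3} (hij : i ≠ j) (hjk : j ≠ k) (hi : σ i = j) (hj : σ j = k)
    (hk : σ k = i) {u w : V} (huw : u ≠ w) (hu : 0 < (f.1 i).1 u) (hw : 0 < (f.1 i).1 w) :
    False := by
  have p1 : ∀ k z, 0 < (f.1 k).1 z → 0 < (f'.1 k).1 z := h1.1
  have p2 : ∀ k z, 0 < (f.1 k).1 z → 0 < (f'.1 (σ k)).1 z := h2.1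
  have p2i : ∀ z, 0 < (f.1 i).1 z → 0 < (f'.1 j).1 z := by
    have := p2 i
    rwa [hi] at this
  have p2j : ∀ z, 0 < (f.1 j).1 z → 0 < (f'.1 k).1 z := by
    have := p2 j
    rwa [hj] at this
  have p2k : ∀ z, 0 < (f.1 k).1 z → 0 < (f'.1 i).1 z := by
    have := p2 k
    rwa [hk] at this
  obtain ⟨hadj, hi0⟩ := edge_of huw (p1 i u hu) (p1 i w hw)
  obtain ⟨-, hj0⟩ := edge_of huw (p2i u hu) (p2i w hw)
  have fj0 : ∀ z, z ≠ u → z ≠ w → (f.1 j).1 z = 0 := fun z a b => zero_of (p1 j) (hj0 z a b)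
  have fk0 : ∀ z, z ≠ u → z ≠ w → (f.1 k).1 z = 0 := fun z a b => zero_of p2k (hi0 z a b)
  have fi0 : ∀ z, z ≠ u → z ≠ w → (f.1 i).1 z = 0 := fun z a b => zero_of (p1 i) (hi0 z a b)
  obtain ⟨-, hku, hkw⟩ := contain (r := f'.1 k) (ne_pt f hjk) fj0 fk0 p2j (p1 k)
  obtain ⟨-, hk0⟩ := edge_of huw hku hkw
  have q2 : ∀ a b, (∀ z, z ≠ u → z ≠ w → (f'.1 (σ a)).1 z = 0) →
      (∀ z, z ≠ u → z ≠ w → (f'.1 (σ b)).1 z = 0) → (f.1 a).1 u < (f.1 b).1 u →
      (f'.1 (σ a)).1 u < (f'.1 (σ b)).1 u := fun a b => h2.2 a b u w hadj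
  rcases lt_trichotomy ((f.1 i).1 u) ((f.1 j).1 u) with h | h | h
  · have e1 := h1.2 i j u w hadj hi0 hj0 h
    have e2 := q2 i j (by rw [hi]; exact hj0) (by rw [hj]; exact hk0) h
    rw [hi, hj] at e2
    rcases lt_trichotomy ((f.1 j).1 u) ((f.1 k).1 u) with h' | h' | h'
    · have e3 := q2 j k (by rw [hj]; exact hk0) (by rw [hk]; exact hi0) h'
      rw [hj, hk] at e3
      linarith
    · exact ne_pt f hjk (edge_eq fj0 fk0 h')
    · have e3 := h1.2 k j u w hadj hk0 hj0 h'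
      linarith
  · exact ne_pt f hij (edge_eq fi0 fj0 h)
  · have e1 := h1.2 j i u w hadj hj0 hi0 h
    have e2 := q2 j i (by rw [hj]; exact hk0) (by rw [hi]; exact hj0) h
    rw [hi, hj] at e2
    rcases lt_trichotomy ((f.1 j).1 u) ((f.1 k).1 u) with h' | h' | h'
    · have e3 := h1.2 j k u w hadj hj0 hk0 h'
      linarith
    · exact ne_pt f hjk (edge_eq fj0 fk0 h')
    · have e3 := q2 k j (by rw [hk]; exact hi0) (by rw [hj]; exact hk0) h'
      rw [hj, hk] at e3
      linarith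

lemma no_cyc (hT : TriFree G) (f f' : Conf G) (σ : Equiv.Perm (Fin 3)) (h1 : f' ∈ St f)
    (h2 : f'.perm σ ∈ St f) {i j k : Fin 3} (hij : i ≠ j) (hjk : j ≠ k) (hik : i ≠ k)
    (hi : σ i = j) (hj : σ j = k) (hk : σ k = i) : False := by
  have p1 : ∀ k z, 0 < (f.1 k).1 z → 0 < (f'.1 k).1 z := h1.1
  have p2 : ∀ k z, 0 < (f.1 k).1 z → 0 < (f'.1 (σ k)).1 z := h2.1
  have p2i : ∀ z, 0 < (f.1 i).1 z → 0 < (f'.1 j).1 z := by
    have := p2 i
    rwa [hi] at this
  have p2j : ∀ z, 0 < (f.1 j).1 z → 0 < (f'.1 k).1 z := by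
    have := p2 j
    rwa [hj] at this
  have p2k : ∀ z, 0 < (f.1 k).1 z → 0 < (f'.1 i).1 z := by
    have := p2 k
    rwa [hk] at this
  rcases classify (f.1 i) with ⟨a, ha⟩ | ⟨u, w, huw, hu, hw⟩
  swap
  · exact cyc_edge f f' σ h1 h2 hij hjk hi hj hk huw hu hw
  rcases classify (f.1 j) with ⟨b, hb⟩ | ⟨u, w, huw, hu, hw⟩
  swap
  · exact cyc_edge f f' σ h1 h2 hjk hik.symm hj hk hi huw hu hw
  rcases classify (f.1 k) with ⟨c, hc⟩ | ⟨u, w, huw, hu, hw⟩
  swap
  · exact cyc_edge f f' σ h1 h2 hik.symm hij hk hi hj huw hu hw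
  have hab : a ≠ b := by
    rintro rfl
    exact ne_pt f hij (vtx_eq ha hb)
  have hbc : b ≠ c := by
    rintro rfl
    exact ne_pt f hjk (vtx_eq hb hc)
  have hac : a ≠ c := by
    rintro rfl
    exact ne_pt f hik (vtx_eq ha hc)
  have pa := vtx_pos ha
  have pb := vtx_pos hb
  have pc := vtx_pos hc
  exact hT a b c (edge_of hab (p2i a pa) (p1 j b pb)).1 (edge_of hbc (p2j b pb) (p1 k c pc)).1
    (edge_of hac (p1 i a pa) (p2k c pc)).1

lemma perm3 : ∀ σ : Equiv.Perm (Fin 3), σ = 1 ∨ (∃ i j, i ≠ j ∧ σ i = j ∧ σ j = i) ∨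
    ∃ i j k, i ≠ j ∧ j ≠ k ∧ i ≠ k ∧ σ i = j ∧ σ j = k ∧ σ k = i := by
  decide

end

theorem inj : S_inj := by
  intro V _ _ G hT f f' σ h1 h2
  rcases perm3 σ with h | ⟨i, j, hij, hi, hj⟩ | ⟨i, j, k, hij, hjk, hik, hi, hj, hk⟩
  · exact h
  · exact (no_swap f f' σ h1 h2 hij hi hj).elim
  · exact (no_cyc hT f f' σ h1 h2 hij hjk hik hi hj hk).elim

/-! ### matching -/

/-- sorting inside classes -/
lemma sort_classes {n : ℕ} (C : Fin n → ℕ) (a b : Fin n → ℝ) : ∃ σ : Equiv.Perm (Fin n),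
    (∀ i, C (σ i) = C i) ∧ ∀ i j, C i = C j → a i < a j → b (σ i) ≤ b (σ j) := by
  set key : Fin n → ℕ ×ₗ ℝ := fun i => toLex (C i, a i) with hkey
  set key1 : Fin n → ℕ ×ₗ ℝ := fun i => toLex (C i, b i) with hkey1
  have m0 := Tuple.monotone_sort key
  have m1 := Tuple.monotone_sort key1
  set τ := Tuple.sort key
  set τ1 := Tuple.sort key1
  have c0 : Monotone (C ∘ τ) := by
    intro x y hxy
    have h := m0 hxy
    simp only [hkey, Function.comp, Prod.Lex.toLex_le_toLex] at h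
    rcases h with h | h
    · exact h.le
    · exact h.1.le
  have c1 : Monotone (C ∘ τ1) := by
    intro x y hxy
    have h := m1 hxy
    simp only [hkey1, Function.comp, Prod.Lex.toLex_le_toLex] at h
    rcases h with h | h
    · exact h.le
    · exact h.1.le
  have hC := Tuple.unique_monotone c0 c1
  have hC' : ∀ x, C (τ x) = C (τ1 x) := fun x => congrFun hC x
  refine ⟨τ.symm.trans τ1, ?_, ?_⟩
  · intro i
    simp only [Equiv.trans_apply]
    rw [← hC', Equiv.apply_symm_apply]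
  · intro i j hij hlt
    simp only [Equiv.trans_apply]
    have h1 : τ.symm i < τ.symm j := by
      by_contra h
      have h2 := m0 (not_lt.1 h)
      simp only [hkey, Function.comp, Prod.Lex.toLex_le_toLex, Equiv.apply_symm_apply] at h2
      rcases h2 with h2 | h2
      · omega
      · linarith [h2.2]
    have h3 := m1 h1.le
    simp only [hkey1, Function.comp, Prod.Lex.toLex_le_toLex] at h3
    have h4 := hC' (τ.symm i)
    have h5 := hC' (τ.symm j)
    rw [Equiv.apply_symm_apply] at h4 h5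
    rcases h3 with h3 | h3
    · omega
    · exact h3.2

section

variable {V : Type} [Fintype V] [DecidableEq V] {G : SimpleGraph V}

/-- a numbering of the vertices -/
noncomputable def gg (V : Type) [Fintype V] (z : V) : ℝ := ((Fintype.equivFin V z : Fin _) : ℕ)

lemma gg_inj {u w : V} (h : gg V u = gg V w) : u = w := by
  unfold gg at h
  have h1 : ((Fintype.equivFin V u : Fin _) : ℕ) = ((Fintype.equivFin V w : Fin _) : ℕ) := by
    exact_mod_cast h
  exact (Fintype.equivFin V).injective (Fin.ext h1)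

/-- a linear coordinate on all edges -/
noncomputable def ph (p : Pt G) : ℝ := ∑ z, gg V z * p.1 z

lemma ph_eq {p : Pt G} {u w : V} (huw : u ≠ w) (hp : ∀ z, z ≠ u → z ≠ w → p.1 z = 0) :
    ph p = gg V w + (gg V u - gg V w) * p.1 u := by
  have h1 := sum_two huw (sum_pt p) hp
  have h2 : ph p = gg V u * p.1 u + gg V w * p.1 w := by
    unfold ph
    rw [← Finset.sum_pair (f := fun z => gg V z * p.1 z) huw]
    symm
    apply Finset.sum_subset (Finset.subset_univ _)
    intro z _ hz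
    simp only [Finset.mem_insert, Finset.mem_singleton, not_or] at hz
    rw [hp z hz.1 hz.2, mul_zero]
  rw [h2, show p.1 w = 1 - p.1 u by linarith]
  ring

lemma mem_supp {p : Pt G} {z : V} : z ∈ supp p ↔ 0 < p.1 z := by
  unfold supp
  rw [Finset.mem_filter]
  constructor
  · rintro ⟨-, h⟩
    exact lt_of_le_of_ne (nonneg p z) (Ne.symm h)
  · intro h
    exact ⟨Finset.mem_univ _, h.ne'⟩

end

theorem mtch : S_match := by
  intro V _ _ G f f1 hsub
  have hinj : Function.Injective fun s : Finset V => ((Fintype.equivFin (Finset V) s : Fin _) : ℕ) :=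
    fun s t h => (Fintype.equivFin (Finset V)).injective (Fin.ext h)
  obtain ⟨σ, hσ, hord⟩ := sort_classes
    (fun i => ((Fintype.equivFin (Finset V) (supp (f1.1 i)) : Fin _) : ℕ))
    (fun i => ph (f.1 i)) (fun i => ph (f1.1 i))
  have hs : ∀ i, supp (f1.1 (σ i)) = supp (f1.1 i) := fun i => hinj (hσ i)
  have hord' : ∀ i j, supp (f1.1 i) = supp (f1.1 j) → ph (f.1 i) < ph (f.1 j) →
      ph (f1.1 (σ i)) ≤ ph (f1.1 (σ j)) := by
    intro i j h
    apply hord i j
    rw [h]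
  have hpos : ∀ i u, 0 < (f.1 i).1 u → 0 < (f1.1 (σ i)).1 u := by
    intro i u hu
    have h1 : u ∈ supp (f1.1 i) := hsub i (mem_supp.2 hu)
    rw [← hs i] at h1
    exact mem_supp.1 h1
  refine ⟨σ, ⟨hpos, ?_⟩, hs⟩
  intro i j u w hadj hi hj hlt
  change ∀ z, z ≠ u → z ≠ w → (f1.1 (σ i)).1 z = 0 at hi
  change ∀ z, z ≠ u → z ≠ w → (f1.1 (σ j)).1 z = 0 at hj
  change (f1.1 (σ i)).1 u < (f1.1 (σ j)).1 u
  have huw : u ≠ w := hadj.ne
  have fi0 : ∀ z, z ≠ u → z ≠ w → (f.1 i).1 z = 0 := fun z a b => zero_of (hpos i) (hi z a b)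
  have fj0 : ∀ z, z ≠ u → z ≠ w → (f.1 j).1 z = 0 := fun z a b => zero_of (hpos j) (hj z a b)
  have si := sum_two huw (sum_pt _) hi
  have sj := sum_two huw (sum_pt _) hj
  have ti := sum_two huw (sum_pt _) fi0
  have tj := sum_two huw (sum_pt _) fj0
  have hju : 0 < (f.1 j).1 u := lt_of_le_of_lt (nonneg _ _) hlt
  have hqu := hpos j u hju
  by_cases hpu : (f1.1 (σ i)).1 u = 0
  · rw [hpu]; exact hqu
  · by_cases hpw : (f1.1 (σ i)).1 w = 0
    · have h1 := zero_of (hpos i) hpw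
      have h2 := nonneg (f.1 j) w
      linarith
    · by_cases hqw : (f1.1 (σ j)).1 w = 0
      · have h1 : 0 < (f1.1 (σ i)).1 w := lt_of_le_of_ne (nonneg _ _) (Ne.symm hpw)
        linarith
      · -- both inside the edge
        have hsupp : supp (f1.1 (σ i)) = supp (f1.1 (σ j)) := by
          ext z
          rw [mem_supp, mem_supp]
          by_cases hzu : z = u
          · subst hzu
            exact ⟨fun _ => hqu, fun _ => lt_of_le_of_ne (nonneg _ _) (Ne.symm hpu)⟩
          · by_cases hzw : z = w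
            · subst hzw
              exact ⟨fun _ => lt_of_le_of_ne (nonneg _ _) (Ne.symm hqw),
                fun _ => lt_of_le_of_ne (nonneg _ _) (Ne.symm hpw)⟩
            · rw [hi z hzu hzw, hj z hzu hzw]
        have hsij : supp (f1.1 i) = supp (f1.1 j) := by rw [← hs i, ← hs j, hsupp]
        have hij : i ≠ j := by
          rintro rfl
          exact lt_irrefl _ hlt
        have hne : f1.1 (σ i) ≠ f1.1 (σ j) := fun h => hij (σ.injective (f1.2 h))
        have hne' : (f1.1 (σ i)).1 u ≠ (f1.1 (σ j)).1 u := fun h => hne (edge_eq hi hj h)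
        have e1 := ph_eq huw fi0
        have e2 := ph_eq huw fj0
        have e3 := ph_eq huw hi
        have e4 := ph_eq huw hj
        rcases lt_trichotomy (gg V u) (gg V w) with h | h | h
        · have h5 : ph (f.1 j) < ph (f.1 i) := by
            rw [e1, e2]
            nlinarith
          have h6 := hord' j i hsij.symm h5
          rw [e3, e4] at h6
          apply lt_of_le_of_ne _ hne'
          by_contra h7
          push Not at h7
          nlinarith
        · exact absurd (gg_inj h) huw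
        · have h5 : ph (f.1 i) < ph (f.1 j) := by
            rw [e1, e2]
            nlinarith
          have h6 := hord' i j hsij h5
          rw [e3, e4] at h6
          apply lt_of_le_of_ne _ hne'
          by_contra h7
          push Not at h7
          nlinarith

end Pool.Agent.W376.GB
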